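import Pool.Agent.C2.Stmts

/-!
# ELI: elimination of a vertex of degree 4
-/

namespace Pool.Agent.C2.H40

open Finset

theorem eli (hA : AbsStmt) (hP : SplStmt) (hS : SumStmt) : EliStmt := by
  intro F _ _ _ V E _ _ _ _ s t hl v hJ
  have hl' : ∀ e, delS s t v e ≠ delT s t v e := by
    intro e h
    exact hl e.1 (congrArg Subtype.val h)
  have hpos : 0 < Fintype.card {e : E // ¬ (s e ≠ v ∧ t e ≠ v)} := by omega
  obtain ⟨e0⟩ := Fintype.card_pos_iff.mp hpos
  have w0 : {w : V // w ≠ v} := oth s t hl v e0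
  -- the left side
  have h2 := hS F V E s t v (fun b1 b2 d1 a =>
    (cE a (bd (oth s t hl v) b2) (LapM (delS s t v) (delT s t v) b1 d1) : ℤ) ^ 3)
  have h1 : S3 F s t = ∑ b : E → F, ∑ d : V → F, wt b *
      (cE (d v) (bd (oth s t hl v) (fun e => b e.1))
        (LapM (delS s t v) (delT s t v) (fun e => b e.1) (fun w => d w.1)) : ℤ) ^ 3 := by
    unfold S3
    refine Finset.sum_congr rfl fun b _ => Finset.sum_congr rfl fun d _ => ?_
    rw [(hP F V E s t hl v b d).1]
  refine (h1.trans h2).trans ?_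
  unfold SI
  rw [Finset.mul_sum]
  refine Finset.sum_congr rfl fun b1 _ => ?_
  rw [Finset.mul_sum]
  refine Finset.sum_congr rfl fun d1 _ => ?_
  have hsym : ∀ x y, LapM (delS s t v) (delT s t v) b1 d1 x y =
      LapM (delS s t v) (delT s t v) b1 d1 y x :=
    (hP F _ _ (delS s t v) (delT s t v) hl' w0 b1 d1).2.2.2
  have hlap : ∀ (u : {w : V // w ≠ v} → F) (x : {w : V // w ≠ v}),
      Lap (delS s t v) (delT s t v) b1 d1 u x =
        ∑ y, LapM (delS s t v) (delT s t v) b1 d1 x y * u y :=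
    (hP F _ _ (delS s t v) (delT s t v) hl' w0 b1 d1).2.2.1
  have hab := hA F {w : V // w ≠ v} {e : E // ¬ (s e ≠ v ∧ t e ≠ v)} (oth s t hl v)
    (LapM (delS s t v) (delT s t v) b1 d1) hsym hJ
  have hkB : kB (LapM (delS s t v) (delT s t v) b1 d1) =
      kerL (delS s t v) (delT s t v) b1 d1 := by
    unfold kB kerL
    simp only [hlap]
  have hkO : kO (LapM (delS s t v) (delT s t v) b1 d1) (oth s t hl v) =
      Nat.card {k : {w : V // w ≠ v} → F //
        (∀ x, Lap (delS s t v) (delT s t v) b1 d1 k x = 0) ∧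
        (∀ j, k (oth s t hl v j) ≠ 0) ∧ ∀ x ∈ (∅ : Finset {w : V // w ≠ v}), k x = 0} := by
    unfold kO
    refine Nat.card_congr (Equiv.subtypeEquivRight fun u => ?_)
    simp only [hlap]
    constructor
    · rintro ⟨ha, hb⟩
      exact ⟨ha, hb, fun x hx => absurd hx (Finset.notMem_empty x)⟩
    · rintro ⟨ha, hb, _⟩
      exact ⟨ha, hb⟩
  rw [hab, hkB, hkO]
  ring

end Pool.Agent.C2.H40
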